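import Pool.Agent.P8H36.FD.Stm

/-!
# Project FD, package RHZ: Riemann-Hurwitz by multiplicities (helper82)
-/

set_option autoImplicit false

namespace Pool.Agent.P8H82.FD

open Polynomial Pool.Agent.P8H36.FD

variable {K : Type} [Field K] [CharZero K] [IsAlgClosed K]

theorem mult_eq (f P θ : K[X]) (b : ℕ) (hf : Squarefree f) (h : f ^ b = P.comp θ) (t : K) (hw : θ - C t ≠ 0) :
    ∃ k : ℕ, ∀ y, θ.eval y = t → f.eval y = 0 → b = k * (θ - C t).rootMultiplicity y := by
  classical
  have hf0 : f ≠ 0 := hf.ne_zero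
  have hP0 : P ≠ 0 := by
    rintro rfl
    rw [zero_comp] at h
    exact pow_ne_zero b hf0 h
  obtain ⟨q, hq, hnd⟩ := P.exists_eq_pow_rootMultiplicity_mul_and_not_dvd hP0 t
  have hqt : q.eval t ≠ 0 := fun h0 => hnd (dvd_iff_isRoot.2 h0)
  refine ⟨P.rootMultiplicity t, fun y hy hfy => ?_⟩
  have e1 : (f ^ b).roots.count y = b * f.roots.count y := by
    rw [roots_pow, Multiset.count_nsmul]
  have e2 : f.roots.count y = 1 := by
    apply le_antisymm
    · exact Multiset.nodup_iff_count_le_one.1 (nodup_roots (PerfectField.separable_iff_squarefree.2 hf)) y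
    · rw [Nat.succ_le_iff, Multiset.count_pos, mem_roots hf0]
      exact hfy
  have e3 : P.comp θ = (θ - C t) ^ (P.rootMultiplicity t) * q.comp θ := by
    conv_lhs => rw [hq]
    rw [mul_comp, pow_comp, sub_comp, X_comp, C_comp]
  have e4 : (q.comp θ).roots.count y = 0 := by
    rw [Multiset.count_eq_zero]
    intro hm
    have := (mem_roots'.1 hm).2
    rw [IsRoot, eval_comp, hy] at this
    exact hqt this
  have e5 : (P.comp θ).roots.count y = P.rootMultiplicity t * (θ - C t).roots.count y := by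
    rw [e3, roots_mul, Multiset.count_add, e4, add_zero, roots_pow, Multiset.count_nsmul]
    rw [← e3, ← h]
    exact pow_ne_zero _ hf0
  rw [count_roots (θ - C t)] at e5
  rw [← e5, ← h, e1, e2, mul_one]

theorem lemA (f P θ : K[X]) (b : ℕ) (hb : 1 ≤ b) (hf : Squarefree f) (h : f ^ b = P.comp θ)
    (hθ : 0 < θ.natDegree) (z : K) (hz : (derivative θ).eval z = 0) (hfz : f.eval z = 0) :
    ∃ (m : ℕ) (e : K) (g : K[X]), 2 ≤ m ∧ m ∣ b ∧ e ≠ 0 ∧ Squarefree g ∧
      θ - C (θ.eval z) = C e * g ^ m := by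
  classical
  obtain ⟨t, ht⟩ : ∃ t, t = θ.eval z := ⟨_, rfl⟩
  rw [← ht]
  have hw : θ - C t ≠ 0 := by
    intro h0
    have := natDegree_sub_C (p := θ) (a := t)
    rw [h0, natDegree_zero] at this
    omega
  obtain ⟨k, hk⟩ := mult_eq f P θ b hf h t hw
  have hroot : ∀ y, θ.eval y = t → f.eval y = 0 := by
    intro y hy
    have h1 : (f ^ b).eval y = (P.comp θ).eval y := by rw [h]
    have h2 : (f ^ b).eval z = (P.comp θ).eval z := by rw [h]
    rw [eval_comp, eval_pow] at h1 h2
    rw [hy, ht, ← h2, hfz, zero_pow (by omega)] at h1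
    exact pow_eq_zero_iff (by omega) |>.1 h1
  obtain ⟨m, hm⟩ : ∃ m, m = (θ - C t).rootMultiplicity z := ⟨_, rfl⟩
  have hbm : b = k * m := by rw [hm]; exact hk z ht.symm hfz
  have hk0 : 0 < k := by
    rcases Nat.eq_zero_or_pos k with h0 | h0
    · rw [h0, zero_mul] at hbm; omega
    · exact h0
  have hall : ∀ y ∈ (θ - C t).roots.toFinset, (θ - C t).rootMultiplicity y = m := by
    intro y hy
    have hy1 : θ.eval y = t := by
      have := (mem_roots'.1 (Multiset.mem_toFinset.1 hy)).2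
      rw [IsRoot, eval_sub, eval_C, sub_eq_zero] at this
      exact this
    have := hk y hy1 (hroot y hy1)
    exact Nat.eq_of_mul_eq_mul_left hk0 (this.symm.trans hbm)
  refine ⟨m, (θ - C t).leadingCoeff, ∏ y ∈ (θ - C t).roots.toFinset, (X - C y), ?_, ⟨k, by rw [hbm, mul_comm]⟩,
    leadingCoeff_ne_zero.2 hw, ?_, ?_⟩
  · rw [hm]
    have : 1 < (θ - C t).rootMultiplicity z := by
      rw [one_lt_rootMultiplicity_iff_isRoot hw]
      constructor
      · rw [IsRoot, eval_sub, eval_C, ← ht, sub_self]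
      · rw [IsRoot, derivative_sub, derivative_C, sub_zero]
        exact hz
    exact this
  · rw [← PerfectField.separable_iff_squarefree]
    exact (separable_prod_X_sub_C_iff' (f := fun y : K => y)).2 fun x _ y _ hxy => hxy
  · have hc := C_leadingCoeff_mul_prod_multiset_X_sub_C
      (splits_iff_card_roots.1 (IsAlgClosed.splits (θ - C t)))
    rw [prod_multiset_root_eq_finset_root] at hc
    rw [← Finset.prod_pow]
    conv_lhs => rw [← hc]
    congr 1
    exact Finset.prod_congr rfl fun y hy => by rw [hall y hy]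

theorem two (θ : K[X]) (hθ : 0 < θ.natDegree) (t e : K) (g : K[X]) (m : ℕ) (hm : 2 ≤ m) (he : e ≠ 0)
    (hg : Squarefree g) (hE : θ - C t = C e * g ^ m)
    (crit : ∀ z, (derivative θ).eval z = 0 → ∃ (m : ℕ) (e : K) (g : K[X]), 2 ≤ m ∧ e ≠ 0 ∧ Squarefree g ∧
      θ - C (θ.eval z) = C e * g ^ m) : θ.natDegree = m := by
  have deg : ∀ (t e : K) (g : K[X]) (m : ℕ), e ≠ 0 → θ - C t = C e * g ^ m → θ.natDegree = m * g.natDegree := by
    intro t e g m he h
    have := natDegree_sub_C (p := θ) (a := t)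
    rw [h, natDegree_C_mul he, natDegree_pow] at this
    exact this.symm
  have hw := deg t e g m he hE
  have hs : 1 ≤ g.natDegree := by
    rcases Nat.eq_zero_or_pos g.natDegree with h0 | h0
    · rw [h0, mul_zero] at hw; omega
    · exact h0
  rcases Nat.lt_or_ge g.natDegree 2 with hs2 | hs2
  · have : g.natDegree = 1 := by omega
    rw [hw, this, mul_one]
  exfalso
  have hg' : (derivative g).degree ≠ 0 := by
    rw [degree_derivative (by omega)]
    intro h0
    have : g.natDegree - 1 = 0 := by exact_mod_cast h0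
    omega
  obtain ⟨z, hz⟩ := IsAlgClosed.exists_root (derivative g) hg'
  have hgz : g.eval z ≠ 0 := by
    intro h0
    obtain ⟨a, b, hab⟩ : IsCoprime g (derivative g) := PerfectField.separable_iff_squarefree.2 hg
    have := congrArg (eval z) hab
    rw [eval_add, eval_mul, eval_mul, h0, IsRoot.def.1 hz, mul_zero, mul_zero, add_zero, eval_one] at this
    exact zero_ne_one this
  have hd : derivative θ = C e * (C (m : K) * g ^ (m - 1) * derivative g) := by
    have : derivative (θ - C t) = derivative (C e * g ^ m) := by rw [hE]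
    rw [derivative_sub, derivative_C, sub_zero, derivative_C_mul, derivative_pow] at this
    exact this
  have hz' : (derivative θ).eval z = 0 := by
    rw [hd, eval_mul, eval_mul, IsRoot.def.1 hz, mul_zero, mul_zero]
  obtain ⟨m2, e2, g2, hm2, he2, hg2, hE2⟩ := crit z hz'
  have hw2 := deg _ e2 g2 m2 he2 hE2
  have hne : θ.eval z - t ≠ 0 := by
    have := congrArg (eval z) hE
    rw [eval_sub, eval_C, eval_mul, eval_C, eval_pow] at this
    rw [this]
    exact mul_ne_zero he (pow_ne_zero _ hgz)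
  have hcop : IsCoprime (θ - C t) (θ - C (θ.eval z)) := by
    refine ⟨C (θ.eval z - t)⁻¹, - C (θ.eval z - t)⁻¹, ?_⟩
    have h1 : C (θ.eval z - t)⁻¹ * C (θ.eval z - t) = (1 : K[X]) := by
      rw [← C_mul, inv_mul_cancel₀ hne, C_1]
    rw [← h1, C_sub]
    ring
  have d1 : g ^ (m - 1) ∣ θ - C t := by
    rw [hE]
    exact Dvd.dvd.mul_left (pow_dvd_pow _ (by omega)) _
  have d2 : g2 ^ (m2 - 1) ∣ θ - C (θ.eval z) := by
    rw [hE2]
    exact Dvd.dvd.mul_left (pow_dvd_pow _ (by omega)) _
  have d3 : g ^ (m - 1) ∣ derivative θ := by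
    rw [hd]
    exact Dvd.dvd.mul_left (Dvd.dvd.mul_right (Dvd.dvd.mul_left dvd_rfl _) _) _
  have d4 : g2 ^ (m2 - 1) ∣ derivative θ := by
    have : derivative (θ - C (θ.eval z)) = derivative (C e2 * g2 ^ m2) := by rw [hE2]
    rw [derivative_sub, derivative_C, sub_zero, derivative_C_mul, derivative_pow] at this
    rw [this]
    exact Dvd.dvd.mul_left (Dvd.dvd.mul_right (Dvd.dvd.mul_left dvd_rfl _) _) _
  have hc : IsCoprime (g ^ (m - 1)) (g2 ^ (m2 - 1)) :=
    (hcop.of_isCoprime_of_dvd_left d1).of_isCoprime_of_dvd_right d2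
  have hdd := hc.mul_dvd d3 d4
  have hdeg := degree_derivative (p := θ) (by omega)
  have hne0 : derivative θ ≠ 0 := by
    intro h0
    rw [h0, degree_zero] at hdeg
    exact absurd hdeg (by simp)
  have hnd : (derivative θ).natDegree = θ.natDegree - 1 := natDegree_eq_of_degree_eq_some hdeg
  have hle := natDegree_le_of_dvd hdd hne0
  rw [natDegree_mul (pow_ne_zero _ hg.ne_zero) (pow_ne_zero _ hg2.ne_zero), natDegree_pow, natDegree_pow, hnd] at hle
  obtain ⟨p, rfl⟩ : ∃ p, m = p + 2 := ⟨m - 2, by omega⟩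
  obtain ⟨q, rfl⟩ : ∃ q, m2 = q + 2 := ⟨m2 - 2, by omega⟩
  have f1 : (p + 2 - 1) * g.natDegree = p * g.natDegree + g.natDegree := by
    rw [show p + 2 - 1 = p + 1 by omega]; ring
  have f2 : (q + 2 - 1) * g2.natDegree = q * g2.natDegree + g2.natDegree := by
    rw [show q + 2 - 1 = q + 1 by omega]; ring
  rw [f1, f2] at hle
  have f3 : (p + 2) * g.natDegree = p * g.natDegree + 2 * g.natDegree := by ring
  have f4 : (q + 2) * g2.natDegree = q * g2.natDegree + 2 * g2.natDegree := by ring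
  rw [f3] at hw
  rw [f4] at hw2
  omega

end Pool.Agent.P8H82.FD

namespace Pool.Agent.P8H82.FD

open Polynomial Pool.Agent.P8H36.FD

theorem rhz : S_RHZ := by
  intro K _ _ _ f g P Q θ a b ha hb hf hg hfP hgQ hθ hcrit
  by_cases hex : ∃ z, (derivative θ).eval z = 0
  · obtain ⟨z, hz⟩ := hex
    have key : ∀ z, (derivative θ).eval z = 0 → ∃ (m : ℕ) (e : K) (g : K[X]), 2 ≤ m ∧ (m ∣ a ∨ m ∣ b) ∧ e ≠ 0 ∧
        Squarefree g ∧ θ - C (θ.eval z) = C e * g ^ m := by
      intro z hz
      rcases hcrit z hz with h | h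
      · obtain ⟨m, e, g, h1, h2, h3, h4, h5⟩ := lemA f P θ b hb hf hfP hθ z hz h
        exact ⟨m, e, g, h1, Or.inr h2, h3, h4, h5⟩
      · obtain ⟨m, e, g, h1, h2, h3, h4, h5⟩ := lemA g Q θ a ha hg hgQ hθ z hz h
        exact ⟨m, e, g, h1, Or.inl h2, h3, h4, h5⟩
    obtain ⟨m, e, h, h1, h2, h3, h4, h5⟩ := key z hz
    have := two θ hθ (θ.eval z) e h m h1 h3 h4 h5 fun y hy => by
      obtain ⟨m, e, h, h1, h2, h3, h4, h5⟩ := key y hy
      exact ⟨m, e, h, h1, h3, h4, h5⟩
    rw [this]
    exact h2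
  · left
    have hdeg := degree_derivative (p := θ) (by omega)
    have h1 : (derivative θ).degree = 0 := by
      by_contra hne
      obtain ⟨z, hz⟩ := IsAlgClosed.exists_root (derivative θ) hne
      exact hex ⟨z, hz⟩
    rw [h1] at hdeg
    have : θ.natDegree - 1 = 0 := by exact_mod_cast hdeg.symm
    have h2 : θ.natDegree = 1 := by omega
    rw [h2]
    exact one_dvd _

end Pool.Agent.P8H82.FD
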